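import Pool.Agent.N692.LR.Defs

/-!
# LR/ODE (helper570): a one-dimensional solution which is affine on `[-1, ∞)`
-/

set_option autoImplicit false

namespace Pool.Agent.N570.LR

open Set Metric Filter Topology MeasureTheory
open Pool.Agent.N692.LR

/-- the inverse of the integral of a continuous function which is bounded below by a positive number -/
lemma inv_int (g : ℝ → ℝ) (hg : Continuous g) (c x₀ : ℝ) (hc : 0 < c) (hgc : ∀ x, c ≤ g x) :
    ∃ W : ℝ → ℝ, (∀ v, W (∫ x in x₀..v, g x) = v) ∧ ∀ s, HasDerivAt W (g (W s))⁻¹ s := by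
  let S : ℝ → ℝ := fun v => ∫ x in x₀..v, g x
  have hS : ∀ v, HasDerivAt S (g v) v := fun v =>
    intervalIntegral.integral_hasDerivAt_right (hg.intervalIntegrable _ _)
      (hg.stronglyMeasurableAtFilter _ _) hg.continuousAt
  have hcont : Continuous S := continuous_iff_continuousAt.2 fun v => (hS v).continuousAt
  have hmono : StrictMono S := strictMono_of_deriv_pos fun v => by
    rw [(hS v).deriv]
    exact hc.trans_le (hgc v)
  have hT : Monotone fun v => S v - c * v := by
    have h1 : ∀ v, HasDerivAt (fun v => S v - c * v) (g v - c * 1) v := fun v =>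
      (hS v).sub ((hasDerivAt_id v).const_mul c)
    refine monotone_of_deriv_nonneg (fun v => (h1 v).differentiableAt) fun v => ?_
    rw [(h1 v).deriv]
    linarith [hgc v]
  have hS0 : S x₀ = 0 := intervalIntegral.integral_same
  have htop : Tendsto S atTop atTop := by
    have h1 : ∀ᶠ v in atTop, c * v + (-(c * x₀)) ≤ S v := by
      filter_upwards [eventually_ge_atTop x₀] with v hv
      have := hT hv
      simp only [hS0] at this
      linarith
    refine tendsto_atTop_mono' _ h1 ?_
    exact tendsto_atTop_add_const_right _ _ (tendsto_id.const_mul_atTop hc)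
  have hbot : Tendsto S atBot atBot := by
    have h1 : ∀ᶠ v in atBot, S v ≤ c * v + (-(c * x₀)) := by
      filter_upwards [eventually_le_atBot x₀] with v hv
      have := hT hv
      simp only [hS0] at this
      linarith
    refine tendsto_atBot_mono' _ h1 ?_
    exact tendsto_atBot_add_const_right _ _ (tendsto_id.const_mul_atBot hc)
  have hsurj : Function.Surjective S := hcont.surjective htop hbot
  let e : ℝ ≃o ℝ := hmono.orderIsoOfSurjective S hsurj
  have he : ∀ v, e v = S v := fun v => rfl
  refine ⟨e.symm, fun v => ?_, fun s => ?_⟩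
  · change e.symm (S v) = v
    rw [← he, e.symm_apply_apply]
  · have h1 : ContinuousAt e.symm s := e.symm.continuous.continuousAt
    refine HasDerivAt.of_local_left_inverse h1 (hS _) (hc.trans_le (hgc _)).ne' ?_
    exact Eventually.of_forall fun y => by rw [← he, e.apply_symm_apply]

/-- **LR/ODE** -/
theorem t_ODE : S_ODE := by
  intro f hf hfc hf0
  obtain ⟨K₀, hK₀⟩ := hfc.isCompact.isBounded.subset_closedBall 0
  have hz : ∀ t, K₀ < |t| → f t = 0 := by
    intro t ht
    by_contra h
    have h1 := hK₀ (subset_tsupport f h)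
    rw [mem_closedBall, Real.dist_eq, sub_zero] at h1
    linarith
  obtain ⟨K, hK0, hK⟩ : ∃ K : ℝ, 0 ≤ K ∧ ∀ t, K ≤ t → f t = 0 := by
    refine ⟨max 0 (K₀ + 1), le_max_left _ _, fun t ht => hz t ?_⟩
    rw [max_le_iff] at ht
    rw [abs_of_nonneg ht.1]
    linarith [ht.2]
  have hint : Integrable f := hf.integrable_of_hasCompactSupport hfc
  obtain ⟨I, hI⟩ : ∃ I : ℝ, I = ∫ x, f x := ⟨_, rfl⟩
  have hI0 : 0 ≤ I := by rw [hI]; exact integral_nonneg hf0
  obtain ⟨A, hA⟩ : ∃ A : ℝ, A = √(2 * I + 1) := ⟨_, rfl⟩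
  have hA2 : A ^ 2 = 2 * I + 1 := by rw [hA]; exact Real.sq_sqrt (by linarith)
  have hA0 : 0 < A := by rw [hA]; exact Real.sqrt_pos.2 (by linarith)
  let P : ℝ → ℝ := fun w => ∫ x in (K + 1)..w, f x
  have hP : ∀ w, HasDerivAt P (f w) w := fun w =>
    intervalIntegral.integral_hasDerivAt_right (hf.intervalIntegrable _ _)
      (hf.stronglyMeasurableAtFilter _ _) hf.continuousAt
  have hPz : ∀ w, K ≤ w → P w = 0 := by
    intro w hw
    have h1 : ∫ x in (K + 1)..w, f x = ∫ x in (K + 1)..w, (0 : ℝ) := by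
      refine intervalIntegral.integral_congr fun x hx => ?_
      rw [mem_uIcc] at hx
      apply hK
      rcases hx with h | h
      · linarith [h.1]
      · linarith [h.1]
    change ∫ x in (K + 1)..w, f x = 0
    rw [h1, intervalIntegral.integral_zero]
  have hP1 : ∀ w, P w ≤ 0 := by
    intro w
    rcases le_total K w with h | h
    · rw [hPz w h]
    · change ∫ x in (K + 1)..w, f x ≤ 0
      rw [intervalIntegral.integral_symm]
      have := intervalIntegral.integral_nonneg (f := f) (μ := volume)
        (by linarith : w ≤ K + 1) (fun x _ => hf0 x)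
      linarith
  have hP2 : ∀ w, -I ≤ P w := by
    intro w
    rcases le_total K w with h | h
    · rw [hPz w h]
      linarith
    · change -I ≤ ∫ x in (K + 1)..w, f x
      rw [intervalIntegral.integral_symm, neg_le_neg_iff,
        intervalIntegral.integral_of_le (by linarith), hI]
      exact setIntegral_le_integral hint (Eventually.of_forall hf0)
  let G : ℝ → ℝ := fun w => A ^ 2 + 2 * P w
  have hG : ∀ w, HasDerivAt G (2 * f w) w := fun w => by
    have := ((hP w).const_mul 2).const_add (A ^ 2)
    exact this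
  have hG1 : ∀ w, 1 ≤ G w := fun w => by
    change 1 ≤ A ^ 2 + 2 * P w
    rw [hA2]
    linarith [hP2 w]
  have hG2 : ∀ w, G w ≤ A ^ 2 := fun w => by
    change A ^ 2 + 2 * P w ≤ A ^ 2
    linarith [hP1 w]
  have hGz : ∀ w, K ≤ w → G w = A ^ 2 := fun w hw => by
    change A ^ 2 + 2 * P w = A ^ 2
    rw [hPz w hw]
    ring
  have hGc : Continuous G := continuous_iff_continuousAt.2 fun w => (hG w).continuousAt
  have hsp : ∀ w, 0 < √(G w) := fun w => Real.sqrt_pos.2 (by linarith [hG1 w])
  have hsA : ∀ w, √(G w) ≤ A := fun w => Real.sqrt_le_iff.2 ⟨hA0.le, hG2 w⟩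
  have hgc : Continuous fun w => (√(G w))⁻¹ :=
    (Real.continuous_sqrt.comp hGc).inv₀ fun w => (hsp w).ne'
  obtain ⟨W, hW1, hW2⟩ := inv_int (fun w => (√(G w))⁻¹) hgc A⁻¹ (K + 1) (inv_pos.2 hA0)
    fun w => inv_anti₀ (hsp w) (hsA w)
  have hW3 : ∀ s, HasDerivAt W (√(G (W s))) s := fun s => by
    have := hW2 s
    rwa [inv_inv] at this
  refine ⟨K, 2 / 3 * A, by positivity, fun t ht => hK t ht.le, fun s => W (s + 1), ?_, ?_⟩
  · refine ⟨fun s => √(G (W (s + 1))), fun s => ?_, fun s => ?_⟩
    · exact (hW3 (s + 1)).comp_add_const s 1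
    · have h1 : HasDerivAt (fun s => G (W s)) (2 * f (W (s + 1)) * √(G (W (s + 1)))) (s + 1) :=
        (hG (W (s + 1))).comp (s + 1) (hW3 (s + 1))
      have h2 : HasDerivAt (fun s => √(G (W s)))
          (2 * f (W (s + 1)) * √(G (W (s + 1))) / (2 * √(G (W (s + 1))))) (s + 1) :=
        h1.sqrt (by linarith [hG1 (W (s + 1))])
      have h3 := h2.comp_add_const s 1
      have h4 : 2 * f (W (s + 1)) * √(G (W (s + 1))) / (2 * √(G (W (s + 1)))) = f (W (s + 1)) := by
        have := (hsp (W (s + 1))).ne'
        field_simp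
      rw [h4] at h3
      exact h3
  · intro s hs
    have h1 : ∫ x in (K + 1)..(K + 1 + A * (s + 1)), (√(G x))⁻¹ = s + 1 := by
      have h2 : ∫ x in (K + 1)..(K + 1 + A * (s + 1)), (√(G x))⁻¹ =
          ∫ x in (K + 1)..(K + 1 + A * (s + 1)), A⁻¹ := by
        refine intervalIntegral.integral_congr fun x hx => ?_
        have h3 : 0 ≤ A * (s + 1) := mul_nonneg hA0.le (by linarith)
        rw [uIcc_of_le (by linarith)] at hx
        rw [hGz x (by linarith [hx.1]), Real.sqrt_sq hA0.le]
      rw [h2, intervalIntegral.integral_const, smul_eq_mul]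
      field_simp
      ring
    have h2 := hW1 (K + 1 + A * (s + 1))
    rw [h1] at h2
    change W (s + 1) = _
    rw [h2]
    ring

end Pool.Agent.N570.LR
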